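import Pool.Agent.V111.WeylOne

/-!
A strongly graded, controlled ring which is not a crossed product: the first Weyl algebra over `ℚ`
with its grading by the group of order two (parity of the total degree in `x` and `d`).
-/

namespace Pool.Agent.Results.MP_26bbbf_al.WeylParity

open Polynomial Pool.Agent.V111.WeylOne

/-! ### Definitions -/

/-- `R` is graded by the group `G` with components `𝒜 g`: every element is in exactly one way a
finite sum of elements of the additive subgroups `𝒜 g` (one from each), and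
`R_g R_h ⊆ R_(gh)`. -/
def IsGraded {G R : Type} [Group G] [Ring R] (𝒜 : G → AddSubgroup R) : Prop :=
  (∀ r : R, ∃! f : G →₀ R, (∀ g, f g ∈ 𝒜 g) ∧ f.sum (fun _ a => a) = r) ∧
    ∀ g h, ∀ a ∈ 𝒜 g, ∀ b ∈ 𝒜 h, a * b ∈ 𝒜 (g * h)

/-- `R_(gh)` consists of the finite sums of products `a b` with `a ∈ R_g`, `b ∈ R_h`. -/
def IsStronglyGraded {G R : Type} [Group G] [Ring R] (𝒜 : G → AddSubgroup R) : Prop :=
  IsGraded 𝒜 ∧
    ∀ g h, 𝒜 (g * h) = AddSubgroup.closure {c | ∃ a ∈ 𝒜 g, ∃ b ∈ 𝒜 h, c = a * b}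

/-- `R_H`, the sum of the components `R_h` with `h ∈ H`. -/
def comp {G R : Type} [Ring R] (𝒜 : G → AddSubgroup R) (H : Set G) : AddSubgroup R :=
  ⨆ h ∈ H, 𝒜 h

/-- `M` is an `R_e`-sub-bimodule of `R`. -/
def IsSubBimodule {G R : Type} [Group G] [Ring R] (𝒜 : G → AddSubgroup R)
    (M : AddSubgroup R) : Prop :=
  ∀ a ∈ 𝒜 1, ∀ m ∈ M, a * m ∈ M ∧ m * a ∈ M

/-- `φ` is a homomorphism of `R_e`-bimodules between two sub-bimodules. -/
def IsBimoduleHom {G R : Type} [Group G] [Ring R] (𝒜 : G → AddSubgroup R)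
    {M N : AddSubgroup R} (φ : M → N) : Prop :=
  ∀ a ∈ 𝒜 1, ∀ m m' : M, ((m' : R) = a * m → (φ m' : R) = a * φ m) ∧
    ((m' : R) = m * a → (φ m' : R) = φ m * a)

/-- `R` is `G`-controlled: `H ↦ R_H` is a bijection from the subsets of `G` onto the
`R_e`-sub-bimodules of `R`, and `R_S ≅ R_T` as `R_e`-bimodules only when `S = T`. -/
def IsControlled {G R : Type} [Group G] [Ring R] (𝒜 : G → AddSubgroup R) : Prop :=
  Set.BijOn (comp 𝒜) Set.univ {M | IsSubBimodule 𝒜 M} ∧
    ∀ S T : Set G, (∃ φ : comp 𝒜 S ≃+ comp 𝒜 T, IsBimoduleHom 𝒜 φ) → S = T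

/-- A crossed product: every component contains a unit of `R`. -/
def IsCrossedProduct {G R : Type} [Ring R] (𝒜 : G → AddSubgroup R) : Prop :=
  ∀ g, ∃ u ∈ 𝒜 g, IsUnit u

/-! ### Sub-bimodules over the even part, inside the ring of all operators -/

theorem E_mul_neg (S T : E) : S * -T = -(S * T) := mul_neg S T
theorem E_neg_mul (S T : E) : -S * T = -(S * T) := neg_mul S T
theorem E_neg_neg (S : E) : - -S = S := neg_neg S
theorem E_neg_add (S T : E) : -(S + T) = -S + -T := neg_add S T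

/-- Even elements. -/
def IsEven (T : E) : Prop := T ∈ A ∧ P * T = T * P

/-- Odd elements. -/
def IsOdd (T : E) : Prop := T ∈ A ∧ P * T = -(T * P)

theorem IsEven.mul {S T : E} (hS : IsEven S) (hT : IsEven T) : IsEven (S * T) :=
  ⟨A.mul_mem hS.1 hT.1, by rw [← mul_assoc, hS.2, mul_assoc, hT.2, mul_assoc]⟩

theorem IsEven.mul_odd {S T : E} (hS : IsEven S) (hT : IsOdd T) : IsOdd (S * T) :=
  ⟨A.mul_mem hS.1 hT.1, by rw [← mul_assoc, hS.2, mul_assoc, hT.2, E_mul_neg, mul_assoc]⟩

theorem IsOdd.mul_even {S T : E} (hS : IsOdd S) (hT : IsEven T) : IsOdd (S * T) :=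
  ⟨A.mul_mem hS.1 hT.1, by rw [← mul_assoc, hS.2, E_neg_mul, mul_assoc, hT.2, mul_assoc]⟩

theorem IsOdd.mul {S T : E} (hS : IsOdd S) (hT : IsOdd T) : IsEven (S * T) :=
  ⟨A.mul_mem hS.1 hT.1, by
    rw [← mul_assoc, hS.2, E_neg_mul, mul_assoc, hT.2, E_mul_neg, E_neg_neg, mul_assoc]⟩

theorem IsEven.add {S T : E} (hS : IsEven S) (hT : IsEven T) : IsEven (S + T) :=
  ⟨A.add_mem hS.1 hT.1, by rw [mul_add, add_mul, hS.2, hT.2]⟩

theorem IsOdd.add {S T : E} (hS : IsOdd S) (hT : IsOdd T) : IsOdd (S + T) :=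
  ⟨A.add_mem hS.1 hT.1, by rw [mul_add, add_mul, hS.2, hT.2, E_neg_add]⟩

theorem isOdd_x : IsOdd x := ⟨x_mem, Px⟩
theorem isOdd_d : IsOdd d := ⟨d_mem, Pd⟩
theorem isEven_one : IsEven 1 := ⟨A.one_mem, by rw [mul_one, one_mul]⟩
theorem isEven_algebraMap (c : ℚ) : IsEven (algebraMap ℚ E c) :=
  ⟨A.algebraMap_mem c, (Algebra.commutes c P).symm⟩

/-- The Euler operator. -/
noncomputable def θ : E := x * d

theorem isEven_θ : IsEven θ := isOdd_x.mul isOdd_d

theorem isEven_aeval (p : ℚ[X]) : IsEven (aeval θ p) := by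
  induction p using Polynomial.induction_on' with
  | add p q hp hq => rw [map_add]; exact hp.add hq
  | monomial n c =>
    rw [aeval_monomial]
    refine (isEven_algebraMap c).mul ?_
    induction n with
    | zero => exact isEven_one
    | succ n ih => rw [pow_succ]; exact ih.mul isEven_θ

/-- Every element of the Weyl algebra is the sum of an even and an odd element. -/
theorem exists_decomp {T : E} (hT : T ∈ A) : ∃ T0 T1, IsEven T0 ∧ IsOdd T1 ∧ T = T0 + T1 := by
  induction hT using Algebra.adjoin_induction with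
  | mem T hT =>
    have h0 : IsEven (0 : E) := ⟨A.zero_mem, by simp⟩
    rcases hT with rfl | rfl
    · exact ⟨0, x, h0, isOdd_x, by simp⟩
    · exact ⟨0, d, h0, isOdd_d, by simp⟩
  | algebraMap c => exact ⟨algebraMap ℚ E c, 0, isEven_algebraMap c, ⟨A.zero_mem, by simp⟩, by simp⟩
  | add S T _ _ hS hT =>
    obtain ⟨S0, S1, h0, h1, rfl⟩ := hS
    obtain ⟨T0, T1, k0, k1, rfl⟩ := hT
    exact ⟨S0 + T0, S1 + T1, h0.add k0, h1.add k1, by abel⟩
  | mul S T _ _ hS hT =>
    obtain ⟨S0, S1, h0, h1, rfl⟩ := hS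
    obtain ⟨T0, T1, k0, k1, rfl⟩ := hT
    refine ⟨S0 * T0 + S1 * T1, S0 * T1 + S1 * T0, (h0.mul k0).add (h1.mul k1),
      (h0.mul_odd k1).add (h1.mul_even k0), ?_⟩
    rw [add_mul, mul_add, mul_add]
    abel

theorem even_odd_zero {T : E} (h0 : IsEven T) (h1 : IsOdd T) : T = 0 := by
  have h2 : T * P = -(T * P) := h0.2.symm.trans h1.2
  have h3 : T * P = 0 := by
    have : (2 : ℚ) • (T * P) = 0 := by
      rw [two_smul]
      nth_rewrite 2 [h2]
      exact add_neg_cancel _
    rcases smul_eq_zero.mp this with h | h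
    · norm_num at h
    · exact h
  have h4 : T * P * P = 0 := by rw [h3, zero_mul]
  rwa [mul_assoc, PP, mul_one] at h4

/-- A set of operators in the Weyl algebra which is a bimodule over the even part. -/
structure Bim (M : AddSubgroup E) : Prop where
  le : ∀ T ∈ M, T ∈ A
  left : ∀ a, IsEven a → ∀ T ∈ M, a * T ∈ M
  right : ∀ a, IsEven a → ∀ T ∈ M, T * a ∈ M

theorem Bim.smul {M : AddSubgroup E} (hM : Bim M) (c : ℚ) {T : E} (hT : T ∈ M) : c • T ∈ M := by
  rw [Algebra.smul_def]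
  exact hM.left _ (isEven_algebraMap c) _ hT

theorem step {T : E} : T * (x * x) - x * x * T = δ T * x + x * δ T := by
  rw [δ_apply, sub_mul, mul_sub]
  simp only [mul_assoc]
  abel

theorem pow_δ_step (n : ℕ) (T : E) :
    (δ ^ n) (T * (x * x) - x * x * T) = (δ ^ (n + 1)) T * x + x * (δ ^ (n + 1)) T := by
  rw [step, map_add, pow_δ_comm_right δ_x, pow_δ_comm_left δ_x, pow_succ]
  rfl

theorem x_ne_zero : x ≠ 0 := by
  intro h
  have : x 1 = 0 := by rw [h]; rfl
  rw [x_apply, mul_one] at this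
  exact X_ne_zero this

theorem two_x_mul_ne {S : E} (hS : δ S = 0) (h0 : S ≠ 0) : S * x + x * S ≠ 0 := by
  have h1 : S * x = x * S := by
    rw [δ_apply, sub_eq_zero] at hS; exact hS
  rw [h1, ← two_smul ℚ]
  intro h
  rcases smul_eq_zero.mp h with h2 | h2
  · norm_num at h2
  · exact mul_ne_zero_of_δ δ_x hS x_ne_zero h0 h2

/-- An element of the Weyl algebra which commutes with `x²` commutes with `x`. -/
theorem δ_eq_zero_of_comm_sq {T : E} (hT : T ∈ A) (h : T * (x * x) - x * x * T = 0) :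
    δ T = 0 := by
  by_cases h0 : T = 0
  · rw [h0, map_zero]
  obtain ⟨n, hn, hn'⟩ := exists_order hT h0
  rcases n with _ | n
  · simpa using hn
  · exfalso
    have h1 := pow_δ_step n T
    rw [h, map_zero] at h1
    rw [pow_succ', Module.End.mul_apply] at hn
    exact two_x_mul_ne hn hn' h1.symm

theorem Bim.exists_mulP {M : AddSubgroup E} (hM : Bim M) (n : ℕ) :
    ∀ T ∈ M, (δ ^ (n + 1)) T = 0 → (δ ^ n) T ≠ 0 → ∃ p : ℚ[X], p ≠ 0 ∧ mulP p ∈ M := by
  induction n with
  | zero =>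
    intro T hT h1 h2
    rw [zero_add, pow_one] at h1
    have h3 := eq_mulP h1
    refine ⟨T 1, ?_, h3 ▸ hT⟩
    intro h4
    apply h2
    rw [pow_zero, h3, h4]
    apply LinearMap.ext
    intro q
    simp [mulP_apply]
  | succ n ih =>
    intro T hT h1 h2
    apply ih (T * (x * x) - x * x * T)
    · exact M.sub_mem (hM.right _ (isOdd_x.mul isOdd_x) _ hT)
        (hM.left _ (isOdd_x.mul isOdd_x) _ hT)
    · rw [pow_δ_step, h1, zero_mul, mul_zero, add_zero]
    · rw [pow_δ_step]
      apply two_x_mul_ne _ h2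
      rw [pow_succ'] at h1
      exact h1

theorem euler (p : ℚ[X]) : θ * mulP p - mulP p * θ = mulP (X * derivative p) := by
  apply LinearMap.ext
  intro q
  simp only [θ, LinearMap.sub_apply, Module.End.mul_apply, mulP_apply, x_apply, d_apply,
    derivative_mul]
  ring

theorem mulP_smul_sub (p q : ℚ[X]) (c : ℚ) : mulP q - c • mulP p = mulP (q - C c * p) := by
  apply LinearMap.ext
  intro r
  simp only [LinearMap.sub_apply, LinearMap.smul_apply, mulP_apply, smul_eq_C_mul]
  ring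

theorem mulP_X_pow (n : ℕ) : mulP (X ^ n) = x ^ n := by
  induction n with
  | zero => apply LinearMap.ext; intro q; simp [mulP_apply]
  | succ n ih =>
    rw [pow_succ x, ← ih]
    apply LinearMap.ext
    intro q
    simp only [Module.End.mul_apply, mulP_apply, x_apply]
    ring

theorem Bim.exists_pow_aux {M : AddSubgroup E} (hM : Bim M) (n : ℕ) :
    ∀ p : ℚ[X], p ≠ 0 → p.natDegree ≤ n → mulP p ∈ M → ∃ m, x ^ m ∈ M := by
  induction n with
  | zero =>
    intro p hp hd hpM
    have h1 := Polynomial.eq_C_of_natDegree_le_zero hd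
    have hc : p.coeff 0 ≠ 0 := by
      intro h; rw [h, C_0] at h1; exact hp h1
    refine ⟨0, ?_⟩
    have h2 := hM.smul (p.coeff 0)⁻¹ hpM
    have h3 : (p.coeff 0)⁻¹ • mulP p = x ^ 0 := by
      rw [h1]
      apply LinearMap.ext
      intro q
      simp only [LinearMap.smul_apply, mulP_apply, smul_eq_C_mul, pow_zero, Module.End.one_apply,
        coeff_C_zero, ← mul_assoc, ← C_mul, inv_mul_cancel₀ hc, C_1, one_mul]
    rwa [h3] at h2
  | succ n ih =>
    intro p hp hd hpM
    have hq : mulP (X * derivative p - C (p.natDegree : ℚ) * p) ∈ M := by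
      rw [← mulP_smul_sub, ← euler]
      exact M.sub_mem (M.sub_mem (hM.left _ isEven_θ _ hpM) (hM.right _ isEven_θ _ hpM))
        (hM.smul _ hpM)
    have hcoeff : ∀ i : ℕ, (X * derivative p - C (p.natDegree : ℚ) * p).coeff i =
        ((i : ℚ) - p.natDegree) * p.coeff i := by
      intro i
      rw [coeff_sub, coeff_C_mul]
      rcases i with _ | i
      · simp
      · rw [coeff_X_mul, coeff_derivative]
        push_cast
        ring
    by_cases h0 : X * derivative p - C (p.natDegree : ℚ) * p = 0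
    · -- `p` is a monomial
      refine ⟨p.natDegree, ?_⟩
      have h1 : p = C (p.leadingCoeff) * X ^ p.natDegree := by
        ext i
        rw [coeff_C_mul, coeff_X_pow]
        by_cases hi : i = p.natDegree
        · rw [if_pos hi, hi, mul_one]; rfl
        · rw [if_neg hi, mul_zero]
          have h2 := hcoeff i
          rw [h0, coeff_zero] at h2
          rcases mul_eq_zero.mp h2.symm with h3 | h3
          · exfalso
            apply hi
            have h4 : (i : ℚ) = p.natDegree := by linarith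
            exact_mod_cast h4
          · exact h3
      have hl : p.leadingCoeff ≠ 0 := leadingCoeff_ne_zero.mpr hp
      have h2 := hM.smul (p.leadingCoeff)⁻¹ hpM
      have h3 : (p.leadingCoeff)⁻¹ • mulP p = x ^ p.natDegree := by
        rw [← mulP_X_pow]
        apply LinearMap.ext
        intro q
        conv_lhs => rw [h1]
        simp only [LinearMap.smul_apply, mulP_apply, smul_eq_C_mul, ← mul_assoc, ← C_mul]
        simp only [leadingCoeff_mul, leadingCoeff_C, leadingCoeff_X_pow, mul_one]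
        rw [inv_mul_cancel₀ hl, C_1, one_mul]
      rwa [h3] at h2
    · by_cases hd0 : p.natDegree ≤ n
      · exact ih p hp hd0 hpM
      · refine ih _ h0 ?_ hq
        rw [natDegree_le_iff_coeff_eq_zero]
        intro i hi
        rw [hcoeff]
        rcases Nat.lt_or_ge p.natDegree i with h1 | h1
        · rw [coeff_eq_zero_of_natDegree_lt h1, mul_zero]
        · have h2 : i = p.natDegree := by omega
          rw [h2, sub_self, zero_mul]

theorem Bim.exists_pow {M : AddSubgroup E} (hM : Bim M) (h : ∃ T ∈ M, T ≠ 0) :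
    ∃ m, x ^ m ∈ M := by
  obtain ⟨T, hT, hT0⟩ := h
  obtain ⟨n, hn, hn'⟩ := exists_order (hM.le T hT) hT0
  obtain ⟨p, hp, hpM⟩ := hM.exists_mulP n T hT hn hn'
  exact hM.exists_pow_aux p.natDegree p hp le_rfl hpM

theorem x_θ : x * θ = (θ - 1) * x := by
  rw [θ, sub_mul, one_mul, mul_assoc x d x, dx, mul_add, mul_one, add_sub_cancel_right]

theorem x_pow_θ (e : ℕ) : x ^ e * θ = (θ - algebraMap ℚ E e) * x ^ e := by
  induction e with
  | zero => simp
  | succ e ih =>
    rw [pow_succ, mul_assoc, x_θ, ← mul_assoc, mul_sub, ih, mul_one, Nat.cast_succ, map_add,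
      map_one]
    simp only [sub_mul, add_mul, one_mul, mul_assoc, sub_sub]

theorem dd_xx : d * d * (x * x) = (θ + 1) * (θ + 2) := by
  have h1 : d * x = θ + 1 := by rw [dx]; rfl
  have h2 : d * θ = (θ + 1) * d := by rw [θ, ← mul_assoc, dx]
  calc d * d * (x * x) = d * (d * x) * x := by simp only [mul_assoc]
    _ = (d * θ + d) * x := by rw [h1, mul_add, mul_one]
    _ = (θ + 1) * (d * x) + d * x := by rw [h2, add_mul, mul_assoc]
    _ = (θ + 1) * (θ + 1) + (θ + 1) := by rw [h1]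
    _ = (θ + 1) * (θ + 2) := by
      rw [show (θ + 2 : E) = (θ + 1) + 1 by rw [add_assoc, one_add_one_eq_two]]
      exact (mul_add_one (θ + 1) (θ + 1)).symm

theorem xx_dd : x * x * (d * d) = θ * (θ - 1) := by
  have h1 : x * θ = (θ - 1) * x := x_θ
  have h2 : θ * (θ - 1) = (θ - 1) * θ := by rw [mul_sub, sub_mul, mul_one, one_mul]
  calc x * x * (d * d) = x * θ * d := by simp only [θ, mul_assoc]
    _ = (θ - 1) * θ := by rw [h1, mul_assoc]; rfl
    _ = _ := h2.symm

theorem Bim.pow_sub_two {M : AddSubgroup E} (hM : Bim M) (e : ℕ) (h : x ^ (e + 2) ∈ M) :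
    x ^ e ∈ M := by
  have hA : d * d * x ^ (e + 2) = aeval θ ((X + 1) * (X + 2) : ℚ[X]) * x ^ e := by
    rw [show x ^ (e + 2) = (x * x) * x ^ e by rw [← pow_two, ← pow_add, add_comm], ← mul_assoc,
      dd_xx]
    have h2 : (2 : ℚ[X]) = 1 + 1 := one_add_one_eq_two.symm
    rw [h2]
    simp only [map_mul, map_add, aeval_X, map_one]
    rw [one_add_one_eq_two]
  have hB : x ^ (e + 2) * (d * d) =
      aeval θ ((X - C (e : ℚ)) * (X - C (e : ℚ) - 1) : ℚ[X]) * x ^ e := by
    rw [pow_add, pow_two, mul_assoc, xx_dd, ← mul_assoc, x_pow_θ, mul_assoc, mul_sub, x_pow_θ,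
      mul_one]
    simp only [map_mul, map_sub, aeval_X, aeval_C, map_one, mul_assoc]
    rw [sub_mul _ 1, one_mul]
  have hAM : d * d * x ^ (e + 2) ∈ M := hM.left _ (isOdd_d.mul isOdd_d) _ h
  have hBM : x ^ (e + 2) * (d * d) ∈ M := hM.right _ (isOdd_d.mul isOdd_d) _ h
  rw [hA] at hAM
  rw [hB] at hBM
  have h1 : aeval θ (C (4 * ((e : ℚ) + 2)) : ℚ[X]) * (aeval θ ((X + 1) * (X + 2) : ℚ[X]) * x ^ e)
      - aeval θ (2 * X + C ((e : ℚ) + 5) : ℚ[X]) *
        (aeval θ ((X + 1) * (X + 2) : ℚ[X]) * x ^ e -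
          aeval θ ((X - C (e : ℚ)) * (X - C (e : ℚ) - 1) : ℚ[X]) * x ^ e) ∈ M :=
    M.sub_mem (hM.left _ (isEven_aeval _) _ hAM)
      (hM.left _ (isEven_aeval _) _ (M.sub_mem hAM hBM))
  have h2 : aeval θ (C (4 * ((e : ℚ) + 2)) : ℚ[X]) * (aeval θ ((X + 1) * (X + 2) : ℚ[X]) * x ^ e)
      - aeval θ (2 * X + C ((e : ℚ) + 5) : ℚ[X]) *
        (aeval θ ((X + 1) * (X + 2) : ℚ[X]) * x ^ e -
          aeval θ ((X - C (e : ℚ)) * (X - C (e : ℚ) - 1) : ℚ[X]) * x ^ e) =
      (((e : ℚ) + 2) * (e + 1) * (e + 3)) • x ^ e := by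
    rw [← sub_mul, ← mul_assoc, ← mul_assoc, ← sub_mul, ← map_sub, ← map_mul, ← map_mul,
      ← map_sub, Algebra.smul_def]
    congr 1
    rw [← aeval_C]
    congr 1
    simp only [C_add, C_mul]
    have e2 : (C (2 : ℚ)) = 2 := rfl
    have e3 : (C (3 : ℚ)) = 3 := rfl
    have e4 : (C (4 : ℚ)) = 4 := rfl
    have e5 : (C (5 : ℚ)) = 5 := rfl
    rw [e2, e3, e4, e5, C_1]
    ring
  rw [h2] at h1
  have h3 := hM.smul (((e : ℚ) + 2) * (e + 1) * (e + 3))⁻¹ h1
  rw [smul_smul, inv_mul_cancel₀ (by positivity), one_smul] at h3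
  exact h3

theorem Bim.one_or_x {M : AddSubgroup E} (hM : Bim M) (h : ∃ T ∈ M, T ≠ 0) :
    (1 : E) ∈ M ∨ x ∈ M := by
  obtain ⟨m, hm⟩ := hM.exists_pow h
  induction m using Nat.strong_induction_on with
  | _ m ih =>
    rcases m with _ | _ | m
    · left; simpa using hm
    · right; simpa using hm
    · exact ih m (by omega) (hM.pow_sub_two m hm)

theorem Bim.even_mem {M : AddSubgroup E} (hM : Bim M) (h : (1 : E) ∈ M) {T : E} (hT : IsEven T) :
    T ∈ M := by
  have := hM.left T hT 1 h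
  rwa [mul_one] at this

theorem Bim.odd_mem {M : AddSubgroup E} (hM : Bim M) (h : x ∈ M) {T : E} (hT : IsOdd T) :
    T ∈ M := by
  have hd : d ∈ M := by
    have h1 : d * d * x - x * (d * d) ∈ M := M.sub_mem (hM.left _ (isOdd_d.mul isOdd_d) _ h)
      (hM.right _ (isOdd_d.mul isOdd_d) _ h)
    have h2 : d * d * x - x * (d * d) = (2 : ℚ) • d := by
      rw [mul_assoc d d x, dx, mul_add, mul_one, ← mul_assoc d x d, dx, add_mul, one_mul,
        mul_assoc x d d, two_smul]
      abel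
    rw [h2] at h1
    have h3 := hM.smul (1 / 2) h1
    rw [smul_smul] at h3
    norm_num at h3
    exact h3
  have h1 : T = T * d * x - T * x * d := by
    rw [mul_assoc, dx, mul_add, mul_one, mul_assoc]
    abel
  rw [h1]
  exact M.sub_mem (hM.left _ (hT.mul isOdd_d) _ h) (hM.left _ (hT.mul isOdd_x) _ hd)

/-! ### The graded ring -/

/-- The first Weyl algebra, as a ring. -/
def W : Type := A

noncomputable instance : Ring W := inferInstanceAs (Ring A)

/-- The underlying operator. -/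
def op (T : W) : E := Subtype.val T

theorem op_mem (T : W) : op T ∈ A := Subtype.property T

/-- An operator in the Weyl algebra, as an element of the ring `W`. -/
def mk (T : E) (h : T ∈ A) : W := ⟨T, h⟩

theorem op_mk (T : E) (h : T ∈ A) : op (mk T h) = T := rfl
theorem op_inj {S T : W} (h : op S = op T) : S = T := Subtype.ext h
theorem op_zero : op 0 = 0 := rfl
theorem op_one : op 1 = 1 := rfl
theorem op_add (S T : W) : op (S + T) = op S + op T := rfl
theorem op_mul (S T : W) : op (S * T) = op S * op T := rfl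
theorem op_neg (S : W) : op (-S) = -op S := rfl
theorem op_sub (S T : W) : op (S - T) = op S - op T := rfl

/-- The underlying operator, as an additive homomorphism. -/
def opHom : W →+ E := ⟨⟨op, op_zero⟩, op_add⟩

/-- The grading of the Weyl algebra by the group `{1, -1}`: the component of `ε` consists of the
operators `T` with `P T = ε T P`, where `P` is the parity operator. -/
noncomputable def gr (ε : ℤˣ) : AddSubgroup W where
  carrier := {T | P * op T = (ε : ℤ) • (op T * P)}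
  zero_mem' := by
    change P * (0 : E) = (ε : ℤ) • ((0 : E) * P)
    rw [mul_zero, zero_mul, smul_zero]
  add_mem' := by
    intro S T hS hT
    change P * (op S + op T) = (ε : ℤ) • ((op S + op T) * P)
    rw [mul_add, add_mul, smul_add, ← hS, ← hT]
  neg_mem' := by
    intro T hT
    change P * (-op T) = (ε : ℤ) • ((-op T) * P)
    rw [E_mul_neg, E_neg_mul, smul_neg (ε : ℤ) (op T * P), ← hT]

theorem mem_gr_one {T : W} : T ∈ gr 1 ↔ IsEven (op T) := by
  constructor
  · intro h
    refine ⟨op_mem T, ?_⟩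
    have h1 : P * op T = ((1 : ℤˣ) : ℤ) • (op T * P) := h
    rw [h1, Units.val_one, one_smul]
  · intro h
    change P * op T = ((1 : ℤˣ) : ℤ) • (op T * P)
    rw [Units.val_one, one_smul]
    exact h.2

theorem mem_gr_neg {T : W} : T ∈ gr (-1) ↔ IsOdd (op T) := by
  constructor
  · intro h
    refine ⟨op_mem T, ?_⟩
    have h1 : P * op T = ((-1 : ℤˣ) : ℤ) • (op T * P) := h
    rw [h1, Units.val_neg, Units.val_one, neg_one_smul]
  · intro h
    change P * op T = ((-1 : ℤˣ) : ℤ) • (op T * P)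
    rw [Units.val_neg, Units.val_one, neg_one_smul]
    exact h.2

theorem decomp (T : W) : ∃ T0 ∈ gr 1, ∃ T1 ∈ gr (-1), T = T0 + T1 := by
  obtain ⟨T0, T1, h0, h1, h⟩ := exists_decomp (op_mem T)
  exact ⟨mk T0 h0.1, mem_gr_one.mpr h0, mk T1 h1.1, mem_gr_neg.mpr h1, op_inj h⟩

theorem gr_disj {T : W} (h0 : T ∈ gr 1) (h1 : T ∈ gr (-1)) : T = 0 :=
  op_inj (even_odd_zero (mem_gr_one.mp h0) (mem_gr_neg.mp h1))

theorem decomp_unique {S0 T0 S1 T1 : W} (hS0 : S0 ∈ gr 1) (hT0 : T0 ∈ gr 1)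
    (hS1 : S1 ∈ gr (-1)) (hT1 : T1 ∈ gr (-1)) (h : S0 + S1 = T0 + T1) : S0 = T0 ∧ S1 = T1 := by
  have h1 : S0 - T0 = T1 - S1 := by
    rw [sub_eq_sub_iff_add_eq_add, h, add_comm]
  have h2 : S0 - T0 = 0 := by
    apply gr_disj
    · exact (gr 1).sub_mem hS0 hT0
    · rw [h1]; exact (gr (-1)).sub_mem hT1 hS1
  have h3 : S0 = T0 := sub_eq_zero.mp h2
  refine ⟨h3, ?_⟩
  rw [h3] at h
  exact add_left_cancel h

theorem mul_mem_gr {g h : ℤˣ} {a b : W} (ha : a ∈ gr g) (hb : b ∈ gr h) :
    a * b ∈ gr (g * h) := by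
  have ha' : P * op a = (g : ℤ) • (op a * P) := ha
  have hb' : P * op b = (h : ℤ) • (op b * P) := hb
  change P * (op a * op b) = ((g * h : ℤˣ) : ℤ) • ((op a * op b) * P)
  rw [← mul_assoc, ha', smul_mul_assoc, mul_assoc, hb', mul_smul_comm, smul_smul,
    Units.val_mul, mul_assoc]

theorem graded : IsGraded gr := by
  constructor
  · intro T
    obtain ⟨T0, h0, T1, h1, hT⟩ := decomp T
    have hsum : ∀ f : ℤˣ →₀ W, f.sum (fun _ a => a) = f 1 + f (-1) := by
      intro f
      rw [Finsupp.sum_fintype _ _ (fun _ => rfl), UnitsInt.univ,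
        Finset.sum_pair (by decide)]
    refine ⟨Finsupp.equivFunOnFinite.symm (fun ε => if ε = 1 then T0 else T1), ⟨?_, ?_⟩, ?_⟩
    · intro g
      rcases Int.units_eq_one_or g with rfl | rfl
      · simpa using h0
      · simpa [show ¬ ((-1 : ℤˣ) = 1) by decide] using h1
    · rw [hsum]
      simp [show ¬ ((-1 : ℤˣ) = 1) by decide, hT]
    · rintro f ⟨hf, hfs⟩
      rw [hsum, hT] at hfs
      obtain ⟨e0, e1⟩ := decomp_unique (hf 1) h0 (hf (-1)) h1 hfs
      ext g
      rcases Int.units_eq_one_or g with rfl | rfl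
      · simp [e0]
      · simp [show ¬ ((-1 : ℤˣ) = 1) by decide, e1]
  · intro g h a ha b hb
    exact mul_mem_gr ha hb

/-- `x` and `d` in the ring `W`. -/
noncomputable def xA : W := mk x x_mem
noncomputable def dA : W := mk d d_mem

theorem xA_mem : xA ∈ gr (-1) := mem_gr_neg.mpr isOdd_x
theorem dA_mem : dA ∈ gr (-1) := mem_gr_neg.mpr isOdd_d

theorem strongly : IsStronglyGraded gr := by
  refine ⟨graded, ?_⟩
  have hone : (1 : W) ∈ gr 1 := mem_gr_one.mpr isEven_one
  have hdx : dA * xA - xA * dA = 1 := by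
    apply op_inj
    change d * x - x * d = 1
    rw [dx, add_sub_cancel_left]
  intro g h
  apply le_antisymm
  · intro c hc
    rcases Int.units_eq_one_or g with rfl | rfl
    · apply AddSubgroup.subset_closure
      rw [one_mul] at hc
      exact ⟨1, hone, c, hc, (one_mul c).symm⟩
    · -- `c = d (x c) - x (d c)`
      have h1 : c = dA * (xA * c) - xA * (dA * c) := by
        rw [← mul_assoc, ← mul_assoc, ← sub_mul, hdx, one_mul]
      have hh : -1 * (-1 * h) = h := by rw [← mul_assoc]; simp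
      rw [h1]
      apply AddSubgroup.sub_mem
      · apply AddSubgroup.subset_closure
        refine ⟨dA, dA_mem, xA * c, ?_, rfl⟩
        have := mul_mem_gr xA_mem hc
        rwa [hh] at this
      · apply AddSubgroup.subset_closure
        refine ⟨xA, xA_mem, dA * c, ?_, rfl⟩
        have := mul_mem_gr dA_mem hc
        rwa [hh] at this
  · rw [AddSubgroup.closure_le]
    rintro c ⟨a, ha, b, hb, rfl⟩
    exact mul_mem_gr ha hb

theorem gr_le_comp {S : Set ℤˣ} {ε : ℤˣ} (h : ε ∈ S) : gr ε ≤ comp gr S :=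
  le_iSup₂_of_le ε h le_rfl

theorem mem_comp {S : Set ℤˣ} {T : W} : T ∈ comp gr S ↔
    ∃ T0 ∈ gr 1, ∃ T1 ∈ gr (-1), T = T0 + T1 ∧ ((1 : ℤˣ) ∉ S → T0 = 0) ∧
      ((-1 : ℤˣ) ∉ S → T1 = 0) := by
  constructor
  · intro h
    let N : AddSubgroup W :=
      { carrier := {T | ∃ T0 ∈ gr 1, ∃ T1 ∈ gr (-1), T = T0 + T1 ∧ ((1 : ℤˣ) ∉ S → T0 = 0) ∧
          ((-1 : ℤˣ) ∉ S → T1 = 0)}
        zero_mem' := ⟨0, (gr 1).zero_mem, 0, (gr (-1)).zero_mem, by simp, fun _ => rfl,
          fun _ => rfl⟩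
        add_mem' := by
          rintro _ _ ⟨a0, ha0, a1, ha1, rfl, k0, k1⟩ ⟨b0, hb0, b1, hb1, rfl, l0, l1⟩
          refine ⟨a0 + b0, (gr 1).add_mem ha0 hb0, a1 + b1, (gr (-1)).add_mem ha1 hb1,
            by abel, ?_, ?_⟩
          · intro h; rw [k0 h, l0 h, add_zero]
          · intro h; rw [k1 h, l1 h, add_zero]
        neg_mem' := by
          rintro _ ⟨a0, ha0, a1, ha1, rfl, k0, k1⟩
          refine ⟨-a0, (gr 1).neg_mem ha0, -a1, (gr (-1)).neg_mem ha1, by abel, ?_, ?_⟩
          · intro h; rw [k0 h, neg_zero]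
          · intro h; rw [k1 h, neg_zero] }
    have hle : comp gr S ≤ N := by
      refine iSup₂_le ?_
      intro ε hε T hT
      rcases Int.units_eq_one_or ε with rfl | rfl
      · exact ⟨T, hT, 0, (gr (-1)).zero_mem, by simp, fun h => absurd hε h, fun _ => rfl⟩
      · exact ⟨0, (gr 1).zero_mem, T, hT, by simp, fun _ => rfl, fun h => absurd hε h⟩
    exact hle h
  · rintro ⟨T0, h0, T1, h1, rfl, k0, k1⟩
    apply AddSubgroup.add_mem
    · by_cases h : (1 : ℤˣ) ∈ S
      · exact gr_le_comp h h0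
      · rw [k0 h]; exact AddSubgroup.zero_mem _
    · by_cases h : (-1 : ℤˣ) ∈ S
      · exact gr_le_comp h h1
      · rw [k1 h]; exact AddSubgroup.zero_mem _

theorem gr_sub (ε : ℤˣ) : IsSubBimodule gr (gr ε) := by
  intro a ha m hm
  constructor
  · have := mul_mem_gr ha hm
    rwa [one_mul] at this
  · have := mul_mem_gr hm ha
    rwa [mul_one] at this

theorem comp_sub (S : Set ℤˣ) : IsSubBimodule gr (comp gr S) := by
  intro a ha m hm
  rw [mem_comp] at hm
  obtain ⟨T0, h0, T1, h1, rfl, k0, k1⟩ := hm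
  rw [mem_comp, mem_comp]
  constructor
  · refine ⟨a * T0, (gr_sub 1 a ha T0 h0).1, a * T1, (gr_sub (-1) a ha T1 h1).1, mul_add _ _ _,
      ?_, ?_⟩
    · intro h; rw [k0 h, mul_zero]
    · intro h; rw [k1 h, mul_zero]
  · refine ⟨T0 * a, (gr_sub 1 a ha T0 h0).2, T1 * a, (gr_sub (-1) a ha T1 h1).2, add_mul _ _ _,
      ?_, ?_⟩
    · intro h; rw [k0 h, zero_mul]
    · intro h; rw [k1 h, zero_mul]

/-- The image of a sub-bimodule in the ring of all operators. -/
theorem bim_map {M : AddSubgroup W} (hM : IsSubBimodule gr M) : Bim (M.map opHom) := by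
  constructor
  · rintro _ ⟨T, _, rfl⟩
    exact op_mem T
  · rintro a ha _ ⟨T, hT, rfl⟩
    exact ⟨mk a ha.1 * T, (hM (mk a ha.1) (mem_gr_one.mpr ha) T hT).1, rfl⟩
  · rintro a ha _ ⟨T, hT, rfl⟩
    exact ⟨T * mk a ha.1, (hM (mk a ha.1) (mem_gr_one.mpr ha) T hT).2, rfl⟩

theorem one_or_x_mem {M : AddSubgroup W} (hM : IsSubBimodule gr M) {T : W} (hT : T ∈ M)
    (h0 : T ≠ 0) : gr 1 ≤ M ∨ gr (-1) ≤ M := by
  have hB := bim_map hM
  have hmem : ∀ S : W, op S ∈ M.map opHom → S ∈ M := by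
    rintro S ⟨S', hS', h⟩
    have : S' = S := op_inj h
    rwa [this] at hS'
  rcases hB.one_or_x ⟨op T, ⟨T, hT, rfl⟩, fun h => h0 (op_inj h)⟩ with h | h
  · left
    intro S hS
    exact hmem S (hB.even_mem h (mem_gr_one.mp hS))
  · right
    intro S hS
    exact hmem S (hB.odd_mem h (mem_gr_neg.mp hS))

theorem inf_sub {M N : AddSubgroup W} (hM : IsSubBimodule gr M) (hN : IsSubBimodule gr N) :
    IsSubBimodule gr (M ⊓ N) := by
  intro a ha m hm
  exact ⟨⟨(hM a ha m hm.1).1, (hN a ha m hm.2).1⟩, ⟨(hM a ha m hm.1).2, (hN a ha m hm.2).2⟩⟩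

theorem xA_ne : xA ≠ 0 := by
  intro h
  exact x_ne_zero (congrArg op h)

theorem one_ne : (1 : W) ≠ 0 := by
  intro h
  have : (1 : E) = 0 := congrArg op h
  exact one_ne_zero this

theorem gr_one_not_le : ¬ gr 1 ≤ gr (-1) := fun h =>
  one_ne (gr_disj (mem_gr_one.mpr isEven_one) (h (mem_gr_one.mpr isEven_one)))

theorem gr_neg_not_le : ¬ gr (-1) ≤ gr 1 := fun h => xA_ne (gr_disj (h xA_mem) xA_mem)

theorem parts_mem {M : AddSubgroup W} (hM : IsSubBimodule gr M) {T0 T1 : W} (h0 : T0 ∈ gr 1)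
    (h1 : T1 ∈ gr (-1)) (h : T0 + T1 ∈ M) : (T0 ≠ 0 → gr 1 ≤ M) ∧ (T1 ≠ 0 → gr (-1) ≤ M) := by
  by_cases hz : T0 + T1 = 0
  · have : T0 = 0 ∧ T1 = 0 := by
      apply decomp_unique h0 (gr 1).zero_mem h1 (gr (-1)).zero_mem
      rw [hz, add_zero]
    exact ⟨fun h => absurd this.1 h, fun h => absurd this.2 h⟩
  rcases one_or_x_mem hM h hz with hle | hle
  · refine ⟨fun _ => hle, fun hne => ?_⟩
    have hT1 : T1 ∈ M := by
      have := M.sub_mem h (hle h0)
      rwa [add_sub_cancel_left] at this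
    rcases one_or_x_mem (inf_sub hM (gr_sub (-1))) ⟨hT1, h1⟩ hne with h2 | h2
    · exact absurd (h2.trans inf_le_right) gr_one_not_le
    · exact h2.trans inf_le_left
  · refine ⟨fun hne => ?_, fun _ => hle⟩
    have hT0 : T0 ∈ M := by
      have := M.sub_mem h (hle h1)
      rwa [add_sub_cancel_right] at this
    rcases one_or_x_mem (inf_sub hM (gr_sub 1)) ⟨hT0, h0⟩ hne with h2 | h2
    · exact h2.trans inf_le_left
    · exact absurd (h2.trans inf_le_right) gr_neg_not_le

theorem one_mem_comp {S : Set ℤˣ} : (1 : W) ∈ comp gr S ↔ (1 : ℤˣ) ∈ S := by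
  constructor
  · intro h
    by_contra hS
    obtain ⟨T0, h0, T1, h1, hT, k0, _⟩ := mem_comp.mp h
    rw [k0 hS, zero_add] at hT
    rw [← hT] at h1
    exact one_ne (gr_disj (mem_gr_one.mpr isEven_one) h1)
  · intro h
    exact gr_le_comp h (mem_gr_one.mpr isEven_one)

theorem xA_mem_comp {S : Set ℤˣ} : xA ∈ comp gr S ↔ (-1 : ℤˣ) ∈ S := by
  constructor
  · intro h
    by_contra hS
    obtain ⟨T0, h0, T1, h1, hT, _, k1⟩ := mem_comp.mp h
    rw [k1 hS, add_zero] at hT
    rw [← hT] at h0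
    exact xA_ne (gr_disj h0 xA_mem)
  · intro h
    exact gr_le_comp h xA_mem

theorem bij : Set.BijOn (comp gr) Set.univ {M | IsSubBimodule gr M} := by
  refine ⟨fun S _ => comp_sub S, ?_, ?_⟩
  · intro S _ T _ h
    ext ε
    rcases Int.units_eq_one_or ε with rfl | rfl
    · rw [← one_mem_comp, ← one_mem_comp, h]
    · rw [← xA_mem_comp, ← xA_mem_comp, h]
  · intro M hM
    refine ⟨{ε | gr ε ≤ M}, trivial, ?_⟩
    apply le_antisymm
    · exact iSup₂_le (fun ε h => h)
    · intro T hT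
      obtain ⟨T0, h0, T1, h1, rfl⟩ := decomp T
      obtain ⟨k0, k1⟩ := parts_mem hM h0 h1 hT
      rw [mem_comp]
      refine ⟨T0, h0, T1, h1, rfl, ?_, ?_⟩
      · intro h
        by_contra hne
        exact h (k0 hne)
      · intro h
        by_contra hne
        exact h (k1 hne)

/-- An element with `x² c = c x²` and `θ c = c θ` is a scalar, hence even. -/
theorem even_of_comm {c : E} (hc : c ∈ A) (h1 : c * (x * x) - x * x * c = 0)
    (h2 : θ * c - c * θ = 0) : IsEven c := by
  have h3 := eq_mulP (δ_eq_zero_of_comm_sq hc h1)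
  rw [h3, euler] at h2
  have h4 := mulP_eq_zero h2
  have h5 : derivative (c 1) = 0 := by
    rcases mul_eq_zero.mp h4 with h | h
    · exact absurd h X_ne_zero
    · exact h
  have h6 := Polynomial.eq_C_of_derivative_eq_zero h5
  have h7 : c = algebraMap ℚ E ((c 1).coeff 0) := by
    rw [h3, h6]
    apply LinearMap.ext
    intro q
    rw [Module.algebraMap_end_apply, mulP_apply, mulP_apply, smul_eq_C_mul]
    simp
  rw [h7]
  exact isEven_algebraMap _

/-- An element with `x² c = c x²` and `θ c - c θ = c` is a multiple of `x`, hence odd. -/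
theorem odd_of_comm {c : E} (hc : c ∈ A) (h1 : c * (x * x) - x * x * c = 0)
    (h2 : θ * c - c * θ = c) : IsOdd c := by
  have h3 := eq_mulP (δ_eq_zero_of_comm_sq hc h1)
  obtain ⟨p, hp⟩ : ∃ p, p = c 1 := ⟨_, rfl⟩
  rw [← hp] at h3
  rw [h3, euler] at h2
  have h4 : X * derivative p = p := by
    have := congrArg (fun f : E => f 1) h2
    simpa [mulP_apply] using this
  have h5 : p = C (p.coeff 1) * X := by
    ext i
    rw [coeff_C_mul, coeff_X]
    by_cases hi : i = 1
    · rw [hi, if_pos rfl, mul_one]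
    · rw [if_neg (fun h => hi h.symm), mul_zero]
      have h6 : (X * derivative p).coeff i = p.coeff i := by rw [h4]
      rcases i with _ | i
      · rw [coeff_X_mul_zero] at h6; exact h6.symm
      · rw [coeff_X_mul, coeff_derivative] at h6
        have h7 : p.coeff (i + 1) * (i : ℚ) = 0 := by linarith
        rcases mul_eq_zero.mp h7 with h8 | h8
        · exact h8
        · exfalso
          apply hi
          have : i = 0 := by exact_mod_cast h8
          omega
  have h6 : c = algebraMap ℚ E (p.coeff 1) * x := by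
    rw [h3]
    apply LinearMap.ext
    intro q
    rw [Module.End.mul_apply, Module.algebraMap_end_apply, mulP_apply, x_apply, smul_eq_C_mul]
    conv_lhs => rw [h5]
    ring
  rw [h6]
  exact (isEven_algebraMap _).mul_odd isOdd_x

theorem sub_of_hom {S T : Set ℤˣ} (φ : comp gr S ≃+ comp gr T) (hφ : IsBimoduleHom gr φ) :
    S ⊆ T := by
  have hadd : ∀ m n : comp gr S, φ (m + n) = φ m + φ n := φ.map_add'
  have hzero : φ 0 = 0 := by
    have := hadd 0 0
    rw [add_zero] at this
    exact left_eq_add.mp this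
  -- the elements `x²` and `θ` of the even part
  obtain ⟨q, hq⟩ : ∃ q : W, op q = x * x ∧ q ∈ gr 1 :=
    ⟨xA * xA, rfl, mem_gr_one.mpr (isOdd_x.mul isOdd_x)⟩
  obtain ⟨t, ht⟩ : ∃ t : W, op t = θ ∧ t ∈ gr 1 :=
    ⟨xA * dA, rfl, mem_gr_one.mpr (isOdd_x.mul isOdd_d)⟩
  intro ε hε
  by_contra hεT
  rcases Int.units_eq_one_or ε with rfl | rfl
  · -- the image of `1`
    obtain ⟨o, ho⟩ : ∃ o : comp gr S, (o : W) = 1 := ⟨⟨1, one_mem_comp.mpr hε⟩, rfl⟩
    obtain ⟨c, hc⟩ : ∃ c : W, c = (φ o : W) := ⟨_, rfl⟩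
    have hcomm : ∀ a ∈ gr 1, a * c = c * a := by
      intro a ha
      obtain ⟨a', ha'⟩ : ∃ a' : comp gr S, (a' : W) = a := ⟨⟨a, gr_le_comp hε ha⟩, rfl⟩
      have h1 := (hφ a ha o a').1 (by rw [ha', ho, mul_one])
      have h2 := (hφ a ha o a').2 (by rw [ha', ho, one_mul])
      rw [← hc] at h1 h2
      rw [← h1, h2]
    have h1 : IsEven (op c) := by
      apply even_of_comm (op_mem c)
      · have := congrArg op (hcomm q hq.2)
        rw [op_mul, op_mul, hq.1] at this
        rw [this, sub_self]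
      · have := congrArg op (hcomm t ht.2)
        rw [op_mul, op_mul, ht.1] at this
        rw [this, sub_self]
    have h2 : c ∈ gr (-1) := by
      have h3 : c ∈ comp gr T := by rw [hc]; exact (φ o).2
      obtain ⟨T0, h0, T1, h1, hT, k0, _⟩ := mem_comp.mp h3
      rw [k0 hεT, zero_add] at hT
      rwa [← hT] at h1
    have h3 : c = 0 := gr_disj (mem_gr_one.mpr h1) h2
    have h4 : φ o = φ 0 := by
      rw [hzero]
      exact Subtype.ext (hc.symm.trans h3)
    have h5 : o = 0 := φ.injective h4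
    rw [h5] at ho
    exact one_ne ho.symm
  · -- the image of `x`
    obtain ⟨o, ho⟩ : ∃ o : comp gr S, (o : W) = xA := ⟨⟨xA, xA_mem_comp.mpr hε⟩, rfl⟩
    obtain ⟨c, hc⟩ : ∃ c : W, c = (φ o : W) := ⟨_, rfl⟩
    have hmem : ∀ b ∈ gr (-1), b ∈ comp gr S := fun b hb => gr_le_comp hε hb
    have hodd : ∀ a ∈ gr 1, a * xA ∈ gr (-1) ∧ xA * a ∈ gr (-1) :=
      fun a ha => gr_sub (-1) a ha xA xA_mem
    have hl : ∀ a (ha : a ∈ gr 1), (φ ⟨a * xA, hmem _ (hodd a ha).1⟩ : W) = a * c := by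
      intro a ha
      have h1 := (hφ a ha o ⟨a * xA, hmem _ (hodd a ha).1⟩).1 (by rw [ho])
      rw [← hc] at h1
      exact h1
    have hr : ∀ a (ha : a ∈ gr 1), (φ ⟨xA * a, hmem _ (hodd a ha).2⟩ : W) = c * a := by
      intro a ha
      have h1 := (hφ a ha o ⟨xA * a, hmem _ (hodd a ha).2⟩).2 (by rw [ho])
      rw [← hc] at h1
      exact h1
    have hsq : q * c = c * q := by
      have h1 : (⟨q * xA, hmem _ (hodd q hq.2).1⟩ : comp gr S) =
          ⟨xA * q, hmem _ (hodd q hq.2).2⟩ := by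
        apply Subtype.ext
        apply op_inj
        change op q * x = x * op q
        rw [hq.1, mul_assoc]
      rw [← hl q hq.2, ← hr q hq.2, h1]
    have hth : t * c = c * t + c := by
      have h1 : (⟨t * xA, hmem _ (hodd t ht.2).1⟩ : comp gr S) =
          ⟨xA * t, hmem _ (hodd t ht.2).2⟩ + o := by
        apply Subtype.ext
        change t * xA = xA * t + (o : W)
        rw [ho]
        apply op_inj
        change op t * x = x * op t + x
        rw [ht.1, x_θ, sub_mul, one_mul, sub_add_cancel]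
      have h2 : (φ ⟨t * xA, hmem _ (hodd t ht.2).1⟩ : W) =
          (φ ⟨xA * t, hmem _ (hodd t ht.2).2⟩ : W) + (φ o : W) := by
        rw [h1, hadd]
        rfl
      rw [hl t ht.2, hr t ht.2, ← hc] at h2
      exact h2
    have h1 : IsOdd (op c) := by
      apply odd_of_comm (op_mem c)
      · have := congrArg op hsq
        rw [op_mul, op_mul, hq.1] at this
        rw [this, sub_self]
      · have := congrArg op hth
        rw [op_add, op_mul, op_mul, ht.1] at this
        rw [this, add_sub_cancel_left]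
    have h2 : c ∈ gr 1 := by
      have h3 : c ∈ comp gr T := by rw [hc]; exact (φ o).2
      obtain ⟨T0, h0, T1, h1, hT, _, k1⟩ := mem_comp.mp h3
      rw [k1 hεT, add_zero] at hT
      rwa [← hT] at h0
    have h3 : c = 0 := gr_disj h2 (mem_gr_neg.mpr h1)
    have h4 : φ o = φ 0 := by
      rw [hzero]
      exact Subtype.ext (hc.symm.trans h3)
    have h5 : o = 0 := φ.injective h4
    rw [h5] at ho
    exact xA_ne ho.symm

theorem symm_hom {S T : Set ℤˣ} (φ : comp gr S ≃+ comp gr T) (hφ : IsBimoduleHom gr φ) :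
    IsBimoduleHom gr φ.symm := by
  intro a ha m m'
  obtain ⟨n, rfl⟩ := φ.surjective m
  obtain ⟨n', rfl⟩ := φ.surjective m'
  rw [φ.symm_apply_apply, φ.symm_apply_apply]
  constructor
  · intro h
    have hmem := (comp_sub S a ha n n.2).1
    have h1 := (hφ a ha n ⟨a * n, hmem⟩).1 rfl
    have h2 : φ n' = φ ⟨a * n, hmem⟩ := Subtype.ext (by rw [h1, h])
    have h3 := φ.injective h2
    rw [h3]
  · intro h
    have hmem := (comp_sub S a ha n n.2).2
    have h1 := (hφ a ha n ⟨n * a, hmem⟩).2 rfl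
    have h2 : φ n' = φ ⟨n * a, hmem⟩ := Subtype.ext (by rw [h1, h])
    have h3 := φ.injective h2
    rw [h3]

theorem controlled : IsControlled gr :=
  ⟨bij, fun _ _ ⟨φ, hφ⟩ =>
    Set.Subset.antisymm (sub_of_hom φ hφ) (sub_of_hom φ.symm (symm_hom φ hφ))⟩

/-- No odd element is invertible. -/
theorem not_unit {u : W} (hu : u ∈ gr (-1)) : ¬ IsUnit u := by
  rintro ⟨v, rfl⟩
  have h1 : op (v : W) * op (↑v⁻¹ : W) = 1 := by
    rw [← op_mul, v.mul_inv, op_one]
  obtain ⟨h2, h3⟩ := δ_eq_zero_of_mul_eq_one (op_mem (v : W)) (op_mem (↑v⁻¹ : W)) h1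
  have h4 := eq_mulP h2
  have h5 := eq_mulP h3
  obtain ⟨p, hp⟩ : ∃ p, p = (op (v : W)) 1 := ⟨_, rfl⟩
  obtain ⟨r, hr⟩ : ∃ r, r = (op (↑v⁻¹ : W)) 1 := ⟨_, rfl⟩
  rw [← hp] at h4
  rw [← hr] at h5
  have h6 : p * r = 1 := by
    have := congrArg (fun f : E => f 1) h1
    rw [h4, h5] at this
    simpa [mulP_apply, Module.End.mul_apply] using this
  have h7 : IsUnit p := IsUnit.of_mul_eq_one _ h6
  obtain ⟨c, hc, hcp⟩ := Polynomial.isUnit_iff.mp h7
  have h8 := (mem_gr_neg.mp hu).2
  have h9 : P p = -p := by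
    have := congrArg (fun f : E => f 1) h8
    rw [h4] at this
    simpa [mulP_apply, Module.End.mul_apply, P_one] using this
  rw [← hcp] at h9
  have h10 : P (C c) = C c := by simp [P_apply]
  rw [h10] at h9
  have h11 : C c = (0 : ℚ[X]) := by
    have h12 : (2 : ℚ) • (C c : ℚ[X]) = 0 := by
      rw [two_smul]
      nth_rewrite 1 [h9]
      exact neg_add_cancel _
    rcases smul_eq_zero.mp h12 with h | h
    · norm_num at h
    · exact h
  rw [h11] at hcp
  rw [← hcp, zero_mul] at h6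
  exact zero_ne_one h6

/-- **A controlled strongly graded ring which is not a crossed product.** The first Weyl algebra
over `ℚ` with its parity grading by the group of order two is strongly graded and controlled, and
its odd component contains no unit. -/
theorem result : ∃ (G R : Type) (_ : Group G) (_ : Ring R) (𝒜 : G → AddSubgroup R),
    IsStronglyGraded 𝒜 ∧ IsControlled 𝒜 ∧ ¬ IsCrossedProduct 𝒜 := by
  refine ⟨ℤˣ, W, inferInstance, inferInstance, gr, strongly, controlled, ?_⟩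
  intro h
  obtain ⟨u, hu, hu'⟩ := h (-1)
  exact not_unit hu hu'

end Pool.Agent.Results.MP_26bbbf_al.WeylParity
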